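import Pool.Agent.Results.MP_7ecdd4_nt.WindowsOfHeights
import Pool.Agent.V11001.KM.Zero
import Pool.Agent.V11001.KM.Near

/-!
# The strong n-conjecture for ALL tuples with a height near the powers of a real number

Let `ν k / log k → ∞`, for example `ν k = k` or `ν k = k !`. For all real `z > 1` outside a set of Hausdorff dimension
zero, all `θ < 1` and all `n ≥ 3` there is `M` such that ALL admissible `n`-tuples whose height satisfies
`|height - β z ^ (ν k)| ≤ z ^ (θ ν k)` for some `k` satisfy `height ≤ rad ^ M`. For a given `M`, for example `M` near the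
conjectured value, this holds for all `z` outside a set of small dimension and all large heights.
-/

set_option autoImplicit false

open Finset Filter Topology

namespace Pool.Agent.Results.MP_7ecdd4_nt.HeightsNearPowers

open WindowsOfHeights (Admissible height rad Exc count_four count_three finite_height rad_pos rad_ge_two)
open Pool.Agent.V11001.KM

/-- from large `X` to all `X ≥ 1` -/
lemma all_X {n : ℕ} {M s : ℝ} (hs : 0 ≤ s) (h : ∃ C X₀ : ℝ, ∀ X : ℝ, X₀ ≤ X →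
    ({x | x ∈ Exc n M ∧ (height x : ℝ) ≤ X}.ncard : ℝ) ≤ C * X ^ s) :
    ∃ C : ℝ, ∀ X : ℝ, 1 ≤ X → {x | x ∈ Exc n M ∧ (height x : ℝ) ≤ X}.Finite ∧
      ({x | x ∈ Exc n M ∧ (height x : ℝ) ≤ X}.ncard : ℝ) ≤ C * X ^ s := by
  obtain ⟨C, X₀, hC⟩ := h
  refine ⟨|C| + ({x | x ∈ Exc n M ∧ (height x : ℝ) ≤ X₀}.ncard : ℝ), fun X hX => ⟨finite_height n M X, ?_⟩⟩
  have h1 : 1 ≤ X ^ s := Real.one_le_rpow hX hs
  have h0 : (0 : ℝ) ≤ ({x | x ∈ Exc n M ∧ (height x : ℝ) ≤ X₀}.ncard : ℝ) := Nat.cast_nonneg _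
  rcases le_or_gt X₀ X with h2 | h2
  · calc ({x | x ∈ Exc n M ∧ (height x : ℝ) ≤ X}.ncard : ℝ) ≤ C * X ^ s := hC X h2
      _ ≤ (|C| + ({x | x ∈ Exc n M ∧ (height x : ℝ) ≤ X₀}.ncard : ℝ)) * X ^ s :=
          mul_le_mul_of_nonneg_right (by linarith [le_abs_self C]) (by linarith)
  · have h3 : ({x | x ∈ Exc n M ∧ (height x : ℝ) ≤ X}.ncard : ℝ) ≤
        ({x | x ∈ Exc n M ∧ (height x : ℝ) ≤ X₀}.ncard : ℝ) := by
      have h4 : {x | x ∈ Exc n M ∧ (height x : ℝ) ≤ X} ⊆ {x | x ∈ Exc n M ∧ (height x : ℝ) ≤ X₀} :=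
        fun x hx => ⟨hx.1, hx.2.trans h2.le⟩
      exact_mod_cast Set.ncard_le_ncard h4 (finite_height n M X₀)
    nlinarith [abs_nonneg C]

/-- the statement for one `M` -/
lemma of_count {n : ℕ} {M s θ : ℝ} (hs : 0 ≤ s) (hθ : θ < 1)
    (hcount : ∀ ε : ℝ, 0 < ε → ∃ C X₀ : ℝ, ∀ X : ℝ, X₀ ≤ X →
      ({x | x ∈ Exc n M ∧ (height x : ℝ) ≤ X}.ncard : ℝ) ≤ C * X ^ (s + ε))
    {ν : ℕ → ℝ} (hν : Fast ν) (B : Set ℝ) (hB : B.Countable) :
    ∃ E : Set ℝ, dimH E ≤ ENNReal.ofReal (s / (1 - θ)) ∧ ∀ z : ℝ, 1 < z → z ∉ E → ∀ β ∈ B, 0 < β →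
      ∃ H₀ : ℝ, ∀ x : Fin n → ℤ, Admissible x → Near ν θ β z (height x) → H₀ ≤ height x →
        (height x : ℝ) ≤ (rad x : ℝ) ^ M := by
  obtain ⟨E, h1, h2⟩ := family_threshold (fun x : Fin n → ℤ => (height x : ℝ)) hν hs hθ B hB (J := Unit)
    (fun _ => Exc n M) (fun _ ε hε => all_X (by linarith) (hcount ε hε))
  refine ⟨E, h1, fun z hz hzE β hβ hβ0 => ?_⟩
  obtain ⟨H₀, h3⟩ := h2 z hz hzE β hβ hβ0 ()
  refine ⟨H₀, fun x hx hn hH => ?_⟩
  by_contra hcon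
  push Not at hcon
  exact absurd (h3 x ⟨hx, hcon⟩ hn) (not_lt.2 hH)

/-- one set of dimension zero for one `n` -/
lemma zero_one (n : ℕ) (hn : 3 ≤ n) {ν : ℕ → ℝ} (hν : Fast ν) (B : Set ℝ) (hB : B.Countable) :
    ∃ E : Set ℝ, dimH E = 0 ∧ ∀ z : ℝ, 1 < z → z ∉ E → ∀ θ : ℝ, θ < 1 → ∀ β ∈ B, 0 < β →
      ∃ M : ℝ, ∀ x : Fin n → ℤ, Admissible x → Near ν θ β z (height x) →
        (height x : ℝ) ≤ (rad x : ℝ) ^ M := by
  have hn0 : (0 : ℝ) < n := by exact_mod_cast (by omega : 0 < n)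
  obtain ⟨E, h1, h2⟩ := zero_family (Q := Unit) (J := Unit) (fun x : Fin n → ℤ => (height x : ℝ)) hν B hB
    (fun _ j _ => Exc n ((j : ℝ) + 1)) (fun _ j _ => by
      refine all_X (by positivity) ?_
      obtain ⟨C, X₀, h⟩ := count_three n hn ((j : ℝ) + 1) (by positivity) (1 / (n * ((j : ℝ) + 1))) (by positivity)
      refine ⟨C, X₀, fun X hX => (h X hX).trans (le_of_eq ?_)⟩
      congr 2
      field_simp
      ring)
  refine ⟨E, h1, fun z hz hzE θ hθ β hβ hβ0 => ?_⟩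
  obtain ⟨j, hj⟩ := h2 z hz hzE θ hθ ()
  obtain ⟨b, hb⟩ := ((hj β hβ hβ0 ()).image (fun x : Fin n → ℤ => (height x : ℝ))).bddAbove
  refine ⟨max ((j : ℝ) + 1) (Real.logb 2 (max b 1)), fun x hx hw => ?_⟩
  have hrad1 : (1 : ℝ) ≤ rad x := by exact_mod_cast rad_pos x
  by_cases hgood : (height x : ℝ) ≤ (rad x : ℝ) ^ ((j : ℝ) + 1)
  · exact hgood.trans (Real.rpow_le_rpow_of_exponent_le hrad1 (le_max_left _ _))
  · push Not at hgood
    have hmem : (height x : ℝ) ≤ b := hb ⟨x, ⟨⟨hx, hgood⟩, hw⟩, rfl⟩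
    rcases Nat.lt_or_ge (height x) 2 with h2 | h2
    · have h3 : (height x : ℝ) ≤ 1 := by exact_mod_cast (by omega : height x ≤ 1)
      refine h3.trans (Real.one_le_rpow hrad1 ?_)
      exact le_trans (by positivity) (le_max_left _ _)
    · have h4 : (2 : ℝ) ≤ rad x := by exact_mod_cast rad_ge_two x hx.1 h2
      have hB1 : (0 : ℝ) < max b 1 := lt_of_lt_of_le one_pos (le_max_right _ _)
      calc (height x : ℝ) ≤ max b 1 := hmem.trans (le_max_left _ _)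
        _ = 2 ^ (Real.logb 2 (max b 1)) := (Real.rpow_logb two_pos (by norm_num) hB1).symm
        _ ≤ 2 ^ (max ((j : ℝ) + 1) (Real.logb 2 (max b 1))) :=
            Real.rpow_le_rpow_of_exponent_le (by norm_num) (le_max_right _ _)
        _ ≤ (rad x : ℝ) ^ (max ((j : ℝ) + 1) (Real.logb 2 (max b 1))) := by
            apply Real.rpow_le_rpow (by norm_num) h4
            exact le_trans (by positivity) (le_max_left _ _)

/-- **The strong n-conjecture for all tuples with a height near powers.** Let `ν k / log k → ∞` and let `B` be a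
countable set of real numbers.

(1) For `n ≥ 4`, `M ≥ 10 / (3 n - 2)` and `θ < 1` there is a set `E` of Hausdorff dimension at most
`((3 n - 5) / ((3 n - 2) M)) / (1 - θ)` such that for all `z > 1` outside `E` and all positive `β` in `B` all admissible
`n`-tuples `x` of large height with `|height x - β z ^ (ν k)| ≤ z ^ (θ ν k)` for some `k` satisfy
`height x ≤ (rad x) ^ M`.

(2) The same for `n ≥ 3` and `M > 0` with the dimension `((n - 1) / (n M)) / (1 - θ)`.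

(3) There is a set `E` of Hausdorff dimension zero such that for all `z > 1` outside `E`, all `n ≥ 3`, all `θ < 1` and
all positive `β` in `B` there is `M` such that ALL admissible `n`-tuples `x` with
`|height x - β z ^ (ν k)| ≤ z ^ (θ ν k)` for some `k` satisfy `height x ≤ (rad x) ^ M`. -/
theorem result (ν : ℕ → ℝ) (hν : Fast ν) (B : Set ℝ) (hB : B.Countable) :
    (∀ (n : ℕ) (M θ : ℝ), 4 ≤ n → 10 / (3 * (n : ℝ) - 2) ≤ M → θ < 1 →
      ∃ E : Set ℝ, dimH E ≤ ENNReal.ofReal (((3 * (n : ℝ) - 5) / ((3 * (n : ℝ) - 2) * M)) / (1 - θ)) ∧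
        ∀ z : ℝ, 1 < z → z ∉ E → ∀ β ∈ B, 0 < β → ∃ H₀ : ℝ, ∀ x : Fin n → ℤ, Admissible x →
          Near ν θ β z (height x) → H₀ ≤ height x → (height x : ℝ) ≤ (rad x : ℝ) ^ M) ∧
    (∀ (n : ℕ) (M θ : ℝ), 3 ≤ n → 0 < M → θ < 1 →
      ∃ E : Set ℝ, dimH E ≤ ENNReal.ofReal ((((n : ℝ) - 1) / (n * M)) / (1 - θ)) ∧
        ∀ z : ℝ, 1 < z → z ∉ E → ∀ β ∈ B, 0 < β → ∃ H₀ : ℝ, ∀ x : Fin n → ℤ, Admissible x →
          Near ν θ β z (height x) → H₀ ≤ height x → (height x : ℝ) ≤ (rad x : ℝ) ^ M) ∧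
    (∃ E : Set ℝ, dimH E = 0 ∧ ∀ z : ℝ, 1 < z → z ∉ E → ∀ n : ℕ, 3 ≤ n → ∀ θ : ℝ, θ < 1 → ∀ β ∈ B, 0 < β →
      ∃ M : ℝ, ∀ x : Fin n → ℤ, Admissible x → Near ν θ β z (height x) →
        (height x : ℝ) ≤ (rad x : ℝ) ^ M) := by
  refine ⟨fun n M θ hn hM hθ => ?_, fun n M θ hn hM hθ => ?_, ?_⟩
  · have hn4 : (4 : ℝ) ≤ n := by exact_mod_cast hn
    have hM0 : 0 < M := lt_of_lt_of_le (by apply div_pos <;> linarith) hM
    refine of_count ?_ hθ (fun ε hε => ?_) hν B hB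
    · apply div_nonneg
      · linarith
      · apply mul_nonneg _ hM0.le
        linarith
    · obtain ⟨C, hC⟩ := count_four n hn M hM ε hε
      exact ⟨C, 1, hC⟩
  · have hn3 : (3 : ℝ) ≤ n := by exact_mod_cast hn
    refine of_count ?_ hθ (fun ε hε => count_three n hn M hM ε hε) hν B hB
    apply div_nonneg
    · linarith
    · positivity
  · have hall : ∀ n : ℕ, ∃ E : Set ℝ, dimH E = 0 ∧ ∀ z : ℝ, 1 < z → z ∉ E → 3 ≤ n → ∀ θ : ℝ, θ < 1 →
        ∀ β ∈ B, 0 < β → ∃ M : ℝ, ∀ x : Fin n → ℤ, Admissible x → Near ν θ β z (height x) →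
          (height x : ℝ) ≤ (rad x : ℝ) ^ M := by
      intro n
      by_cases hn : 3 ≤ n
      · obtain ⟨E, h1, h2⟩ := zero_one n hn hν B hB
        exact ⟨E, h1, fun z hz hzE _ => h2 z hz hzE⟩
      · exact ⟨∅, by simp, fun z _ _ h => absurd h hn⟩
    choose E h1 h2 using hall
    refine ⟨⋃ n, E n, ?_, fun z hz hzE n hn => h2 n z hz (fun h => hzE (Set.mem_iUnion.2 ⟨n, h⟩)) hn⟩
    rw [dimH_iUnion, ENNReal.iSup_eq_zero]
    exact h1

end Pool.Agent.Results.MP_7ecdd4_nt.HeightsNearPowers
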