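import Pool.Agent.Results.MP_7ecdd4_nt.FewExceptions
import Pool.Agent.H107.MetricZero
import Pool.Agent.H2N.NearSpace

/-!
# The strong n-conjecture for all tuples whose direction is near a point

Let `n ≥ 4`. Outside a set of Hausdorff dimension zero of directions `z`, for every `σ > 0` there is `M` with
`max |x_j| ≤ rad (x_1 ⋯ x_n) ^ M` for ALL admissible `n`-tuples `x` whose direction is within `|x| ^ (-σ)` of `z`, without
exception. For almost every direction `z ∈ ℝ ^ (n - 2)`, all `M > 10 / (3 n - 2)` and `σ > (3 n - 5) / ((3 n - 2) (n - 2) M)`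
the inequality with the exponent `M` holds for all but finitely many admissible `n`-tuples with
`|x_i / x_n - z_i| ≤ |x| ^ (-σ)` for all `i ≤ n - 2`. (By Dirichlet's theorem there are infinitely many `n`-tuples of
integers without common divisor with sum zero as near to `z` for all `z` and `σ < (n - 1) / (n - 2)`.)
-/

set_option autoImplicit false

namespace Pool.Agent.Results.MP_7ecdd4_nt.NearAlmostEveryDirection

open Finset MeasureTheory
open FewExceptions (Admissible Holds exceptions)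

/-- the exponent `(3 n - 5) / ((3 n - 2) M)` -/
noncomputable def expo (n : ℕ) (M : ℝ) : ℝ := (3 * (n : ℝ) - 5) / ((3 * (n : ℝ) - 2) * M)

section Aux

/-- the radical of the product -/
def R {n : ℕ} (x : Fin n → ℤ) : ℕ := (∏ i, x i).natAbs.primeFactors.prod id

lemma R_pos {n : ℕ} (x : Fin n → ℤ) : 1 ≤ R x :=
  Nat.pos_of_ne_zero (Finset.prod_ne_zero_iff.2 fun _ hp => (Nat.prime_of_mem_primeFactors hp).ne_zero)

lemma holds_mono {n : ℕ} {M M' : ℝ} {x : Fin n → ℤ} (h : M ≤ M') (hx : Holds M x) : Holds M' x := by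
  intro j
  refine (hx j).trans ?_
  have h1 : (1 : ℝ) ≤ (R x : ℝ) := by exact_mod_cast R_pos x
  exact Real.rpow_le_rpow_of_exponent_le h1 h

/-- each admissible tuple satisfies the inequality for some exponent -/
lemma holds_some {n : ℕ} {x : Fin n → ℤ} (hx : Admissible x) : ∃ M : ℝ, Holds M x := by
  by_cases h : R x = 1
  · refine ⟨0, fun j => ?_⟩
    show |((x j : ℤ) : ℝ)| ≤ (R x : ℝ) ^ (0 : ℝ)
    rw [Real.rpow_zero]
    have h2 : (∏ i, x i).natAbs = 1 := by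
      by_contra hne
      obtain ⟨p, hp, hpd⟩ := Nat.exists_prime_and_dvd hne
      have h0 : (∏ i, x i).natAbs ≠ 0 := by
        rw [Int.natAbs_ne_zero, Finset.prod_ne_zero_iff]
        exact fun i _ => hx.1 i
      have hmem : p ∈ (∏ i, x i).natAbs.primeFactors := Nat.mem_primeFactors.2 ⟨hp, hpd, h0⟩
      have h3 : p ∣ R x := Finset.dvd_prod_of_mem id hmem
      rw [h] at h3
      exact hp.one_lt.ne' (Nat.dvd_one.1 h3)
    have h3 : (x j).natAbs ∣ 1 := by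
      rw [← h2]
      exact Int.natAbs_dvd_natAbs.2 (Finset.dvd_prod_of_mem x (Finset.mem_univ j))
    have h4 : (x j).natAbs = 1 := Nat.dvd_one.1 h3
    have h5 : |x j| = 1 := by rw [Int.abs_eq_natAbs, h4]; rfl
    exact_mod_cast h5.le
  · have hR : (1 : ℝ) < (R x : ℝ) := by
      have := R_pos x
      exact_mod_cast lt_of_le_of_ne this (Ne.symm h)
    obtain ⟨m, hm⟩ := pow_unbounded_of_one_lt (∑ j, |((x j : ℤ) : ℝ)|) hR
    refine ⟨m, fun j => ?_⟩
    show |((x j : ℤ) : ℝ)| ≤ (R x : ℝ) ^ (m : ℝ)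
    rw [Real.rpow_natCast]
    refine le_trans ?_ hm.le
    exact Finset.single_le_sum (f := fun j => |((x j : ℤ) : ℝ)|) (fun i _ => abs_nonneg _) (Finset.mem_univ j)

lemma holds_finite {n : ℕ} {S : Set (Fin n → ℤ)} (hS : S.Finite) (hA : ∀ x ∈ S, Admissible x) :
    ∃ M : ℝ, ∀ x ∈ S, Holds M x := by
  have hch : ∀ x : Fin n → ℤ, ∃ M : ℝ, x ∈ S → Holds M x := fun x => by
    by_cases hx : x ∈ S
    · obtain ⟨M, hM⟩ := holds_some (hA x hx)
      exact ⟨M, fun _ => hM⟩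
    · exact ⟨0, fun h => absurd h hx⟩
  choose g hg using hch
  obtain ⟨B, hB⟩ := (hS.image g).bddAbove
  exact ⟨B, fun x hx => holds_mono (hB ⟨x, hx, rfl⟩) (hg x hx)⟩

/-- the exceptional tuples -/
def Bad (n : ℕ) (M : ℝ) : Set (Fin n → ℤ) := {x | Admissible x ∧ ¬ Holds M x}

/-- the height -/
noncomputable def ht {n : ℕ} (x : Fin n → ℤ) : ℝ := max 1 ‖x‖

lemma one_le_ht {n : ℕ} (x : Fin n → ℤ) : 1 ≤ ht x := le_max_left _ _

lemma ht_eq {n : ℕ} (hn : 1 ≤ n) {x : Fin n → ℤ} (hx : Admissible x) : ht x = ‖x‖ := by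
  refine max_eq_right ?_
  have h1 := norm_le_pi_norm x ⟨0, hn⟩
  refine le_trans ?_ h1
  rw [Int.norm_eq_abs]
  exact_mod_cast Int.one_le_abs (hx.1 ⟨0, hn⟩)

lemma count {n : ℕ} (hn : 4 ≤ n) {M : ℝ} (hM : 10 / (3 * (n : ℝ) - 2) ≤ M) (ε : ℝ) (hε : 0 < ε) :
    ∃ C : ℝ, ∀ X : ℝ, 1 ≤ X → {x | x ∈ Bad n M ∧ ht x ≤ X}.Finite ∧
      ({x | x ∈ Bad n M ∧ ht x ≤ X}.ncard : ℝ) ≤ C * X ^ (expo n M + ε) := by
  obtain ⟨C, hC⟩ := FewExceptions.result n hn M hM ε hε
  have hn4 : (4 : ℝ) ≤ n := by exact_mod_cast hn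
  have hM0 : 0 < M := lt_of_lt_of_le (by
    have : (0 : ℝ) < 3 * (n : ℝ) - 2 := by linarith
    positivity) hM
  have he : 0 ≤ expo n M := by
    unfold expo
    have h1 : (0 : ℝ) < 3 * (n : ℝ) - 2 := by linarith
    have h2 : (0 : ℝ) ≤ 3 * (n : ℝ) - 5 := by linarith
    positivity
  refine ⟨|C|, fun X hX => ?_⟩
  have hX0 : 0 < X := by linarith
  have hfl : 1 ≤ ⌊X⌋₊ := Nat.le_floor (by exact_mod_cast hX)
  have hsub : {x | x ∈ Bad n M ∧ ht x ≤ X} ⊆
      {x : Fin n → ℤ | Admissible x ∧ (∀ i, |x i| ≤ ((⌊X⌋₊ : ℕ) : ℤ)) ∧ ¬ Holds M x} := by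
    rintro x ⟨⟨h1, h2⟩, h3⟩
    refine ⟨h1, fun i => ?_, h2⟩
    have h4 : ‖x i‖ ≤ X := (norm_le_pi_norm x i).trans ((le_max_right _ _).trans h3)
    rw [Int.norm_eq_abs] at h4
    have h5 : (((x i).natAbs : ℕ) : ℝ) ≤ X := by
      rw [Nat.cast_natAbs]
      push_cast
      exact h4
    have h6 : (x i).natAbs ≤ ⌊X⌋₊ := Nat.le_floor h5
    rw [Int.abs_eq_natAbs]
    exact_mod_cast h6
  have hfin : {x : Fin n → ℤ | Admissible x ∧ (∀ i, |x i| ≤ ((⌊X⌋₊ : ℕ) : ℤ)) ∧ ¬ Holds M x}.Finite := by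
    refine (Finset.finite_toSet (Fintype.piFinset fun _ : Fin n =>
      Finset.Icc (-((⌊X⌋₊ : ℕ) : ℤ)) ((⌊X⌋₊ : ℕ) : ℤ))).subset ?_
    rintro a ⟨-, ha, -⟩
    rw [Finset.mem_coe, Fintype.mem_piFinset]
    exact fun k => Finset.mem_Icc.2 (abs_le.1 (ha k))
  refine ⟨hfin.subset hsub, ?_⟩
  have h1 : ({x | x ∈ Bad n M ∧ ht x ≤ X}.ncard : ℝ) ≤ (exceptions n M ⌊X⌋₊ : ℝ) := by
    exact_mod_cast Set.ncard_le_ncard hsub hfin
  refine h1.trans ((hC ⌊X⌋₊ hfl).trans ?_)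
  refine (mul_le_mul_of_nonneg_right (le_abs_self C) (by positivity)).trans ?_
  apply mul_le_mul_of_nonneg_left _ (abs_nonneg C)
  exact Real.rpow_le_rpow (by positivity) (Nat.floor_le hX0.le) (by unfold expo at he; linarith)

lemma expo_nonneg {n : ℕ} (hn : 4 ≤ n) {M : ℝ} (hM : 0 < M) : 0 ≤ expo n M := by
  have hn4 : (4 : ℝ) ≤ n := by exact_mod_cast hn
  unfold expo
  have h1 : (0 : ℝ) < 3 * (n : ℝ) - 2 := by linarith
  have h2 : (0 : ℝ) ≤ 3 * (n : ℝ) - 5 := by linarith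
  positivity

end Aux

/-- **Theorem.** `expo n M = (3 n - 5) / ((3 n - 2) M)`, and `‖x‖` is the maximum of the `|x_i|`.
(1) Let `n = k + 2 ≥ 4`. For almost every `z ∈ ℝ ^ k`, all `M > 10 / (3 n - 2)` and all `σ > expo n M / k` the inequality
`max |x_j| ≤ rad (x_1 ⋯ x_n) ^ M` holds for all but finitely many admissible `n`-tuples `x` with
`|x_i / x_n - z_i| ≤ ‖x‖ ^ (-σ)` for `i = 1, …, k`.
(2) Let `n ≥ 4`. For every map `φ` from the `n`-tuples to a metric space `T`, `M ≥ 10 / (3 n - 2)` and `σ > 0` there is a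
set `E ⊆ T` of Hausdorff dimension at most `expo n M / σ` such that for all `z` outside `E` the inequality with the
exponent `M` holds for all but finitely many admissible `x` with `dist (φ x, z) ≤ ‖x‖ ^ (-σ)`.
(3) Let `n ≥ 4`. For every map `φ` from the `n`-tuples to a metric space `T` there is a set `E ⊆ T` of Hausdorff dimension
zero such that for all `z` outside `E` and all `σ > 0` there is `M` with `max |x_j| ≤ rad (x_1 ⋯ x_n) ^ M` for ALL
admissible `x` with `dist (φ x, z) ≤ ‖x‖ ^ (-σ)`. -/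
theorem result :
    (∀ k : ℕ, 2 ≤ k → ∀ᵐ z : Fin k → ℝ, ∀ M σ : ℝ, 10 / (3 * ((k + 2 : ℕ) : ℝ) - 2) < M → expo (k + 2) M / k < σ →
      {x : Fin (k + 2) → ℤ | Admissible x ∧ (∀ i : Fin k, |(x (i.castAdd 2) : ℝ) / (x (Fin.last (k + 1)) : ℝ) - z i| ≤
        ‖x‖ ^ (-σ)) ∧ ¬ Holds M x}.Finite) ∧
    (∀ n : ℕ, 4 ≤ n → ∀ (T : Type) [MetricSpace T] (φ : (Fin n → ℤ) → T) (M σ : ℝ), 10 / (3 * (n : ℝ) - 2) ≤ M →
      0 < σ → ∃ E : Set T, dimH E ≤ ENNReal.ofReal (expo n M / σ) ∧ ∀ z : T, z ∉ E →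
        {x : Fin n → ℤ | Admissible x ∧ dist (φ x) z ≤ ‖x‖ ^ (-σ) ∧ ¬ Holds M x}.Finite) ∧
    (∀ n : ℕ, 4 ≤ n → ∀ (T : Type) [MetricSpace T] (φ : (Fin n → ℤ) → T), ∃ E : Set T, dimH E = 0 ∧
      ∀ z : T, z ∉ E → ∀ σ : ℝ, 0 < σ → ∃ M : ℝ, ∀ x : Fin n → ℤ, Admissible x → dist (φ x) z ≤ ‖x‖ ^ (-σ) →
        Holds M x) := by
  refine ⟨fun k hk => ?_, fun n hn T _ φ M σ hM hσ => ?_, fun n hn T _ φ => ?_⟩
  · have hk0 : (0 : ℝ) < k := by exact_mod_cast (by omega : 0 < k)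
    have hfr : Module.finrank ℝ (Fin k → ℝ) = k := by
      rw [Module.finrank_pi, Fintype.card_fin]
    have hn3 : (0 : ℝ) < 3 * ((k + 2 : ℕ) : ℝ) - 2 := by
      push_cast
      linarith
    have h1 : ∀ r : ℚ, ∀ᵐ z : Fin k → ℝ, 10 / (3 * ((k + 2 : ℕ) : ℝ) - 2) ≤ (r : ℝ) → ∀ σ : ℝ,
        expo (k + 2) r / k < σ → {x | x ∈ Bad (k + 2) (r : ℝ) ∧
          dist (fun i : Fin k => (x (i.castAdd 2) : ℝ) / (x (Fin.last (k + 1)) : ℝ)) z ≤ ht x ^ (-σ)}.Finite := by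
      intro r
      by_cases hr : 10 / (3 * ((k + 2 : ℕ) : ℝ) - 2) ≤ (r : ℝ)
      · have hr0 : (0 : ℝ) < r := lt_of_lt_of_le (by positivity) hr
        have h2 := Pool.Agent.H2N.ae_family_space (volume : Measure (Fin k → ℝ)) (by rw [hfr]; omega)
          (fun x : Fin (k + 2) → ℤ => fun i : Fin k => (x (i.castAdd 2) : ℝ) / (x (Fin.last (k + 1)) : ℝ)) ht one_le_ht
          (s := expo (k + 2) r) (expo_nonneg (by omega) hr0) (J := Unit) (fun _ => Bad (k + 2) (r : ℝ))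
          (fun _ => count (by omega) hr)
        filter_upwards [h2] with z hz _ σ hσ
        exact hz σ (by rw [hfr]; exact hσ) ()
      · exact Filter.Eventually.of_forall fun z h => absurd h hr
    filter_upwards [ae_all_iff.2 h1] with z hz M σ hM hσ
    have hM0 : 0 < M := lt_trans (by positivity) hM
    have h5 : (0 : ℝ) ≤ 3 * ((k + 2 : ℕ) : ℝ) - 5 := by
      have : (2 : ℝ) ≤ k := by exact_mod_cast hk
      push_cast
      linarith
    have hσ0 : 0 < σ := lt_of_le_of_lt (div_nonneg (expo_nonneg (by omega) hM0) hk0.le) hσ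
    have h6 : (3 * ((k + 2 : ℕ) : ℝ) - 5) / ((3 * ((k + 2 : ℕ) : ℝ) - 2) * k * σ) < M := by
      unfold expo at hσ
      rw [div_div, div_lt_iff₀ (by positivity)] at hσ
      rw [div_lt_iff₀ (by positivity)]
      nlinarith
    obtain ⟨r, hr1, hr2⟩ := exists_rat_btwn (max_lt hM h6)
    have hr3 := (le_max_left _ _).trans hr1.le
    have hr4 := lt_of_le_of_lt (le_max_right _ _) hr1
    have hr0 : (0 : ℝ) < r := lt_of_lt_of_le (by positivity) hr3
    refine (hz r hr3 σ ?_).subset ?_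
    · unfold expo
      rw [div_div, div_lt_iff₀ (by positivity)]
      rw [div_lt_iff₀ (by positivity)] at hr4
      nlinarith
    · rintro x ⟨g1, g2, g3⟩
      refine ⟨⟨g1, fun h => g3 (holds_mono hr2.le h)⟩, ?_⟩
      show dist _ z ≤ ht x ^ (-σ)
      rw [ht_eq (by omega) g1, dist_pi_le_iff (by positivity)]
      exact g2
  · obtain ⟨E, hE1, hE2⟩ := Pool.Agent.H107.ME.dim_family φ ht one_le_ht (s := expo n M)
      (expo_nonneg hn (lt_of_lt_of_le (by
        have : (4 : ℝ) ≤ n := by exact_mod_cast hn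
        have : (0 : ℝ) < 3 * (n : ℝ) - 2 := by linarith
        positivity) hM)) hσ (J := Unit) (fun _ => Bad n M) (fun _ => count hn hM)
    refine ⟨E, hE1, fun z hz => (hE2 z hz ()).subset ?_⟩
    rintro x ⟨g1, g2, g3⟩
    exact ⟨⟨g1, g3⟩, by rw [ht_eq (by omega) g1]; exact g2⟩
  · obtain ⟨E, hE1, hE2⟩ := Pool.Agent.H107.ME.dim_zero φ ht one_le_ht (fun m => Bad n ((m : ℝ) + 10)) (fun ε hε => by
      have hn4 : (4 : ℝ) ≤ n := by exact_mod_cast hn
      have hn3 : (0 : ℝ) < 3 * (n : ℝ) - 2 := by linarith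
      obtain ⟨m, hm⟩ := exists_nat_ge (2 / ε)
      have hM : 10 / (3 * (n : ℝ) - 2) ≤ (m : ℝ) + 10 := by
        rw [div_le_iff₀ hn3]
        have : (0 : ℝ) ≤ m := Nat.cast_nonneg m
        nlinarith
      obtain ⟨C, hC⟩ := count hn hM (ε / 2) (by positivity)
      refine ⟨m, |C|, fun X hX => ⟨(hC X hX).1, (hC X hX).2.trans ?_⟩⟩
      have hX0 : 0 < X := by linarith
      refine (mul_le_mul_of_nonneg_right (le_abs_self C) (Real.rpow_nonneg hX0.le _)).trans ?_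
      apply mul_le_mul_of_nonneg_left _ (abs_nonneg C)
      apply Real.rpow_le_rpow_of_exponent_le hX
      have h5 : expo n ((m : ℝ) + 10) ≤ ε / 2 := by
        unfold expo
        rw [div_le_iff₀ (by positivity)]
        rw [div_le_iff₀ hε] at hm
        have h6 : 1 ≤ ε / 2 * ((m : ℝ) + 10) := by nlinarith
        nlinarith
      linarith)
    refine ⟨E, hE1, fun z hz σ hσ => ?_⟩
    obtain ⟨m, hm⟩ := hE2 z hz σ hσ
    obtain ⟨B, hB⟩ := holds_finite hm (fun x hx => hx.1.1)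
    refine ⟨max B ((m : ℝ) + 10), fun x hx hnear => ?_⟩
    by_cases h : Holds ((m : ℝ) + 10) x
    · exact holds_mono (le_max_right _ _) h
    · refine holds_mono (le_max_left _ _) (hB x ⟨⟨hx, h⟩, ?_⟩)
      rw [ht_eq (by omega) hx]
      exact hnear

end Pool.Agent.Results.MP_7ecdd4_nt.NearAlmostEveryDirection
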