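import Pool.Agent.Results.MP_7ecdd4_nt.WindowsOfHeights
import Pool.Agent.H36PA.Engine

/-!
# The strong n-conjecture: ALL admissible tuples in the residue classes of almost every point

An admissible `n`-tuple, `n = m + 1` (nonzero pairwise coprime integers with sum zero), is determined by its first `m`
coordinates. Let `p_1, …, p_r` be primes and `σ > 0`. For all `α = (α_j)`, `α_j ∈ ℤ_{p_j} ^ m`, outside of a set of Hausdorff
dimension at most `s / σ` and all large `T`, ALL admissible `n`-tuples `x` with `|x_i| ≤ T` and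
`|x_i - α_{j,i}|_{p_j} ≤ T ^ (-σ)` for all `i ≤ m` and all `j` satisfy `max |x_j| ≤ rad(x_1 ⋯ x_n) ^ M`. Here
(1) `n ≥ 4`, `M ≥ 10 / (3 n - 2)` and `s = (3 n - 5) / ((3 n - 2) M)`; (2) `n ≥ 3`, `M > 0` and `s = (n - 1) / (n M)`.
(3) For `n ≥ 3` and all `α` outside of one set of dimension `0` and every `σ > 0` there is `M` such that the inequality holds
for ALL `T ≥ 1` and all these tuples: the statement of Q1 for all the tuples in the classes of `α`.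
-/

set_option autoImplicit false

open Finset

namespace Pool.Agent.Results.MP_7ecdd4_nt.TuplesInResidueClasses

open Pool.Agent.Results.MP_7ecdd4_nt.WindowsOfHeights (Admissible height rad Exc finite_height count_four count_three
  rad_pos rad_ge_two)

/-- the first `m` coordinates -/
def first {m : ℕ} (x : Fin (m + 1) → ℤ) : Fin m → ℤ := fun i => x i.castSucc

theorem height_le {m : ℕ} (hm : 1 ≤ m) {X : ℝ} (hX : 0 ≤ X) {x : Fin (m + 1) → ℤ} (hx : ∑ i, x i = 0)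
    (h : ∀ i : Fin m, |(x i.castSucc : ℝ)| ≤ X) : (height x : ℝ) ≤ m * X := by
  have hm1 : (1 : ℝ) ≤ m := by exact_mod_cast hm
  have hall : ∀ i, |(x i : ℝ)| ≤ m * X := by
    intro i
    refine Fin.lastCases ?_ (fun j => ?_) i
    · rw [Fin.sum_univ_castSucc] at hx
      have h3 : x (Fin.last m) = -∑ j : Fin m, x j.castSucc := by linarith
      have h4 : |(x (Fin.last m) : ℝ)| ≤ ∑ j : Fin m, |(x j.castSucc : ℝ)| := by
        rw [h3]
        push_cast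
        rw [abs_neg]
        exact Finset.abs_sum_le_sum_abs _ _
      calc |(x (Fin.last m) : ℝ)| ≤ _ := h4
        _ ≤ ∑ _j : Fin m, X := Finset.sum_le_sum fun j _ => h j
        _ = m * X := by rw [Finset.sum_const, Finset.card_univ, Fintype.card_fin, nsmul_eq_mul]
    · exact (h j).trans (by nlinarith)
  have h5 : (height x : ℝ) ≤ ⌊(m : ℝ) * X⌋₊ := by
    have h6 : height x ≤ ⌊(m : ℝ) * X⌋₊ := by
      unfold height
      refine Finset.sup_le fun j _ => Nat.le_floor ?_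
      rw [Nat.cast_natAbs, Int.cast_abs]
      exact hall j
    exact_mod_cast h6
  exact h5.trans (Nat.floor_le (by positivity))

theorem core {m r : ℕ} (hm : 1 ≤ m) (p : Fin r → ℕ) [∀ j, Fact (p j).Prime] (M : ℝ) {s : ℝ} (hs : 0 ≤ s)
    (hc : ∀ ε : ℝ, 0 < ε → ∃ C : ℝ, ∀ X : ℝ, 1 ≤ X →
      ({x | x ∈ Exc (m + 1) M ∧ (height x : ℝ) ≤ X}.ncard : ℝ) ≤ C * X ^ (s + ε)) {σ : ℝ} (hσ : 0 < σ) :
    ∃ E : Set (∀ j : Fin r, Fin m → ℤ_[p j]), dimH E ≤ ENNReal.ofReal (s / σ) ∧ ∀ α ∉ E, ∃ T₀ : ℝ, ∀ T ≥ T₀,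
      ∀ x : Fin (m + 1) → ℤ, Admissible x → (∀ i : Fin m, |(x i.castSucc : ℝ)| ≤ T) →
        (∀ (j : Fin r) (i : Fin m), ‖(x i.castSucc : ℤ_[p j]) - α j i‖ ≤ T ^ (-σ)) →
          (height x : ℝ) ≤ (rad x : ℝ) ^ M := by
  have hm1 : (1 : ℝ) ≤ m := by exact_mod_cast hm
  obtain ⟨E, hE1, hE2⟩ := Pool.Agent.H36PA.padic_ints p (fun _ => first '' Exc (m + 1) M) hs (fun _ ε hε => by
    obtain ⟨C, hC⟩ := hc ε hε
    refine ⟨C * (m : ℝ) ^ (s + ε), fun X hX => ?_⟩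
    have hX0 : 0 ≤ X := by linarith
    have hmX : 1 ≤ m * X := by nlinarith
    have h2 := hC (m * X) hmX
    have h1 := finite_height (m + 1) M (m * X)
    have hsub : {t : Fin m → ℤ | (∀ i, |(t i : ℝ)| ≤ X) ∧ t ∈ first '' Exc (m + 1) M} ⊆
        first '' {x | x ∈ Exc (m + 1) M ∧ (height x : ℝ) ≤ m * X} := by
      rintro _ ⟨ht, x, hx, rfl⟩
      exact ⟨x, ⟨hx, height_le hm hX0 hx.1.2.2 ht⟩, rfl⟩
    have hfin := h1.image (first (m := m))
    refine ⟨hfin.subset hsub, le_trans ?_ (h2.trans (le_of_eq ?_))⟩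
    · exact_mod_cast (Set.ncard_le_ncard hsub hfin).trans (Set.ncard_image_le h1)
    · rw [Real.mul_rpow (by positivity) hX0]
      ring) hσ
  refine ⟨E, hE1, fun α hα => ?_⟩
  obtain ⟨T₀, hT⟩ := hE2 α hα 0
  refine ⟨T₀, fun T hT1 x hxa hx hxα => ?_⟩
  by_contra hcon
  push Not at hcon
  exact hT T hT1 (first x) hx hxα ⟨x, ⟨hxa, hcon⟩, rfl⟩

/-- the count for all `X ≥ 1` from the count for large `X` -/
theorem count_three' (n : ℕ) (hn : 3 ≤ n) (M : ℝ) (hM : 0 < M) (ε : ℝ) (hε : 0 < ε) :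
    ∃ C : ℝ, ∀ X : ℝ, 1 ≤ X → ({x | x ∈ Exc n M ∧ (height x : ℝ) ≤ X}.ncard : ℝ) ≤
      C * X ^ (((n : ℝ) - 1) / (n * M) + ε) := by
  obtain ⟨C, X₀, h⟩ := count_three n hn M hM ε hε
  have hn3 : (3 : ℝ) ≤ n := by exact_mod_cast hn
  have hexp : 0 ≤ ((n : ℝ) - 1) / (n * M) + ε := by
    have : 0 ≤ ((n : ℝ) - 1) / (n * M) := div_nonneg (by linarith) (by positivity)
    linarith
  obtain ⟨D, hD⟩ : ∃ D : ℝ, D = ({x | x ∈ Exc n M ∧ (height x : ℝ) ≤ X₀}.ncard : ℝ) := ⟨_, rfl⟩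
  have hD0 : 0 ≤ D := by rw [hD]; exact Nat.cast_nonneg _
  refine ⟨|C| + D, fun X hX => ?_⟩
  have hXe : 1 ≤ X ^ (((n : ℝ) - 1) / (n * M) + ε) := Real.one_le_rpow hX hexp
  by_cases hXX : X₀ ≤ X
  · refine (h X hXX).trans (mul_le_mul_of_nonneg_right ?_ (by linarith))
    have := le_abs_self C
    linarith
  · push Not at hXX
    have hsub : {x | x ∈ Exc n M ∧ (height x : ℝ) ≤ X} ⊆ {x | x ∈ Exc n M ∧ (height x : ℝ) ≤ X₀} :=
      fun x hx => ⟨hx.1, hx.2.trans hXX.le⟩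
    have h1 : ({x | x ∈ Exc n M ∧ (height x : ℝ) ≤ X}.ncard : ℝ) ≤ D := by
      rw [hD]
      exact_mod_cast Set.ncard_le_ncard hsub (finite_height n M X₀)
    have h2 : 0 ≤ |C| := abs_nonneg C
    nlinarith

/-- the inequality with one exponent for all `T ≥ 1` -/
theorem uniform {m r : ℕ} (hm : 2 ≤ m) (p : Fin r → ℕ) [∀ j, Fact (p j).Prime] :
    ∃ E : Set (∀ j : Fin r, Fin m → ℤ_[p j]), dimH E = 0 ∧ ∀ α ∉ E, ∀ σ : ℝ, 0 < σ → ∃ M : ℝ, ∀ T : ℝ, 1 ≤ T →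
      ∀ x : Fin (m + 1) → ℤ, Admissible x → (∀ i : Fin m, |(x i.castSucc : ℝ)| ≤ T) →
        (∀ (j : Fin r) (i : Fin m), ‖(x i.castSucc : ℤ_[p j]) - α j i‖ ≤ T ^ (-σ)) →
          (height x : ℝ) ≤ (rad x : ℝ) ^ M := by
  have hm2 : (2 : ℝ) ≤ m := by exact_mod_cast hm
  have key : ∀ k l : ℕ, ∃ E : Set (∀ j : Fin r, Fin m → ℤ_[p j]),
      dimH E ≤ ENNReal.ofReal ((1 / ((l : ℝ) + 1)) / (1 / ((k : ℝ) + 1))) ∧ ∀ α ∉ E, ∃ T₀ : ℝ, ∀ T ≥ T₀,
      ∀ x : Fin (m + 1) → ℤ, Admissible x → (∀ i : Fin m, |(x i.castSucc : ℝ)| ≤ T) →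
        (∀ (j : Fin r) (i : Fin m), ‖(x i.castSucc : ℤ_[p j]) - α j i‖ ≤ T ^ (-(1 / ((k : ℝ) + 1)))) →
          (height x : ℝ) ≤ (rad x : ℝ) ^ ((l : ℝ) + 1) := by
    intro k l
    refine core (by omega) p ((l : ℝ) + 1) (by positivity) (fun ε hε => ?_) (by positivity)
    obtain ⟨C, hC⟩ := count_three' (m + 1) (by omega) ((l : ℝ) + 1) (by positivity) ε hε
    refine ⟨|C|, fun X hX => (hC X hX).trans ?_⟩
    refine mul_le_mul (le_abs_self C) ?_ (Real.rpow_nonneg (by linarith) _) (abs_nonneg C)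
    refine Real.rpow_le_rpow_of_exponent_le hX ?_
    have h1 : (((m + 1 : ℕ) : ℝ) - 1) / (((m + 1 : ℕ) : ℝ) * ((l : ℝ) + 1)) ≤ 1 / ((l : ℝ) + 1) := by
      rw [div_le_div_iff₀ (by positivity) (by positivity)]
      push_cast
      nlinarith [Nat.cast_nonneg (α := ℝ) l]
    linarith
  choose E hE1 hE2 using key
  refine ⟨⋃ k : ℕ, ⋂ l : ℕ, E k l, ?_, fun α hα σ hσ => ?_⟩
  · rw [dimH_iUnion, ENNReal.iSup_eq_zero]
    intro k
    refine le_antisymm (le_of_tendsto_of_tendsto (tendsto_const_nhds (x := dimH (⋂ l : ℕ, E k l)))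
      (?_ : Filter.Tendsto (fun l : ℕ => ENNReal.ofReal ((1 / ((l : ℝ) + 1)) / (1 / ((k : ℝ) + 1)))) Filter.atTop
        (nhds 0)) (Filter.Eventually.of_forall fun l => (dimH_mono (Set.iInter_subset _ l)).trans (hE1 k l))) bot_le
    rw [← ENNReal.ofReal_zero]
    refine (ENNReal.continuous_ofReal.tendsto 0).comp ?_
    have h2 := (tendsto_one_div_add_atTop_nhds_zero_nat (𝕜 := ℝ)).div_const (1 / ((k : ℝ) + 1))
    rwa [zero_div] at h2
  · simp only [Set.mem_iUnion, Set.mem_iInter, not_exists, not_forall] at hα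
    obtain ⟨k, hk⟩ := exists_nat_gt (1 / σ)
    obtain ⟨l, hl⟩ := hα k
    obtain ⟨T₀, hT₀⟩ := hE2 k l α hl
    have hk0 : (0 : ℝ) < (k : ℝ) + 1 := by positivity
    have hkσ : 1 / ((k : ℝ) + 1) ≤ σ := by
      rw [div_lt_iff₀ hσ] at hk
      rw [div_le_iff₀ hk0]
      nlinarith
    obtain ⟨q, hq⟩ := pow_unbounded_of_one_lt ((m : ℝ) * |T₀|) (one_lt_two : (1 : ℝ) < 2)
    refine ⟨max ((l : ℝ) + 1) q, fun T hT x hxa hxT hxα => ?_⟩
    have hr1 : (1 : ℝ) ≤ rad x := by exact_mod_cast rad_pos x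
    by_cases hTT : T₀ ≤ T
    · refine (hT₀ T hTT x hxa hxT fun j i => (hxα j i).trans ?_).trans
        (Real.rpow_le_rpow_of_exponent_le hr1 (le_max_left _ _))
      exact Real.rpow_le_rpow_of_exponent_le hT (by linarith)
    · push Not at hTT
      by_cases hh : 2 ≤ height x
      · have h2 : (2 : ℝ) ≤ rad x := by exact_mod_cast rad_ge_two x hxa.1 hh
        have h3 := height_le (by omega) (by linarith) hxa.2.2 hxT
        have h4 : (height x : ℝ) ≤ (2 : ℝ) ^ q := by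
          refine h3.trans (le_trans ?_ hq.le)
          have : T ≤ |T₀| := hTT.le.trans (le_abs_self _)
          nlinarith
        calc (height x : ℝ) ≤ (2 : ℝ) ^ q := h4
          _ ≤ (rad x : ℝ) ^ q := pow_le_pow_left₀ (by norm_num) h2 q
          _ = (rad x : ℝ) ^ (q : ℝ) := (Real.rpow_natCast _ _).symm
          _ ≤ _ := Real.rpow_le_rpow_of_exponent_le hr1 (le_max_right _ _)
      · have h5 : (height x : ℝ) ≤ 1 := by
          have : height x ≤ 1 := by omega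
          exact_mod_cast this
        exact h5.trans (Real.one_le_rpow hr1 (le_max_of_le_right (Nat.cast_nonneg q)))

/-- **All admissible tuples in residue classes.** -/
theorem result (m r : ℕ) (p : Fin r → ℕ) [∀ j, Fact (p j).Prime] (M σ : ℝ) (hσ : 0 < σ) :
    (3 ≤ m → 10 / (3 * ((m + 1 : ℕ) : ℝ) - 2) ≤ M → ∃ E : Set (∀ j : Fin r, Fin m → ℤ_[p j]),
      dimH E ≤ ENNReal.ofReal ((3 * ((m + 1 : ℕ) : ℝ) - 5) / ((3 * ((m + 1 : ℕ) : ℝ) - 2) * M) / σ) ∧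
      ∀ α ∉ E, ∃ T₀ : ℝ, ∀ T ≥ T₀, ∀ x : Fin (m + 1) → ℤ, Admissible x → (∀ i : Fin m, |(x i.castSucc : ℝ)| ≤ T) →
        (∀ (j : Fin r) (i : Fin m), ‖(x i.castSucc : ℤ_[p j]) - α j i‖ ≤ T ^ (-σ)) →
          (height x : ℝ) ≤ (rad x : ℝ) ^ M) ∧
    (2 ≤ m → 0 < M → ∃ E : Set (∀ j : Fin r, Fin m → ℤ_[p j]),
      dimH E ≤ ENNReal.ofReal ((((m + 1 : ℕ) : ℝ) - 1) / (((m + 1 : ℕ) : ℝ) * M) / σ) ∧
      ∀ α ∉ E, ∃ T₀ : ℝ, ∀ T ≥ T₀, ∀ x : Fin (m + 1) → ℤ, Admissible x → (∀ i : Fin m, |(x i.castSucc : ℝ)| ≤ T) →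
        (∀ (j : Fin r) (i : Fin m), ‖(x i.castSucc : ℤ_[p j]) - α j i‖ ≤ T ^ (-σ)) →
          (height x : ℝ) ≤ (rad x : ℝ) ^ M) ∧
    (2 ≤ m → ∃ E : Set (∀ j : Fin r, Fin m → ℤ_[p j]), dimH E = 0 ∧ ∀ α ∉ E, ∀ τ : ℝ, 0 < τ → ∃ K : ℝ, ∀ T : ℝ, 1 ≤ T →
      ∀ x : Fin (m + 1) → ℤ, Admissible x → (∀ i : Fin m, |(x i.castSucc : ℝ)| ≤ T) →
        (∀ (j : Fin r) (i : Fin m), ‖(x i.castSucc : ℤ_[p j]) - α j i‖ ≤ T ^ (-τ)) →
          (height x : ℝ) ≤ (rad x : ℝ) ^ K) := by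
  refine ⟨fun hm hM => ?_, fun hm hM => ?_, fun hm => uniform hm p⟩
  · have hm3 : (3 : ℝ) ≤ m := by exact_mod_cast hm
    have hM0 : 0 < M := by
      refine lt_of_lt_of_le ?_ hM
      push_cast
      apply div_pos <;> linarith
    refine core (by omega) p M ?_ (fun ε hε => count_four (m + 1) (by omega) M hM ε hε) hσ
    push_cast
    apply div_nonneg
    · linarith
    · refine mul_nonneg ?_ hM0.le
      linarith
  · have hm2 : (2 : ℝ) ≤ m := by exact_mod_cast hm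
    refine core (by omega) p M ?_ (fun ε hε => count_three' (m + 1) (by omega) M hM ε hε) hσ
    push_cast
    apply div_nonneg
    · linarith
    · positivity

end Pool.Agent.Results.MP_7ecdd4_nt.TuplesInResidueClasses
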