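import Pool.Agent.Results.MP_7ecdd4_nt.CountByRadicalSharp
import Pool.Agent.Results.MP_7ecdd4_nt.FewExceptions
import Pool.Agent.V11326.WZ
import Pool.Agent.V11326.WS

/-!
# The strong n-conjecture for ALL tuples with a height in windows around `α v_k`

Let `v ≥ 1` be a sequence with exponent of convergence at most `τ` and `θ < 1`. For the `α > 0` outside a set of dimension
at most `τ / (1 - θ)` and every `n ≥ 3` there is `M` such that ALL admissible `n`-tuples with `|height - α v_k| ≤ v_k ^ θ`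
for some `k` satisfy `height ≤ rad ^ M`. For `v_k = b ^ k` there is one exceptional set of dimension `0` for all `θ < 1`.
-/

set_option autoImplicit false

open Finset Filter Topology

namespace Pool.Agent.Results.MP_7ecdd4_nt.WindowsOfHeights

/-- `x` is an admissible tuple: non-zero pairwise coprime integers with sum zero. -/
def Admissible {n : ℕ} (x : Fin n → ℤ) : Prop :=
  (∀ i, x i ≠ 0) ∧ (∀ i j, i ≠ j → Int.gcd (x i) (x j) = 1) ∧ ∑ i, x i = 0

/-- the height `max |x_j|` -/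
def height {n : ℕ} (x : Fin n → ℤ) : ℕ := univ.sup fun j => (x j).natAbs

/-- the radical of `x_1 ⋯ x_n` -/
def rad {n : ℕ} (x : Fin n → ℤ) : ℕ := ∏ p ∈ (∏ i, x i).natAbs.primeFactors, p

/-- the exponent of convergence of the sequence `v` is at most `τ` -/
def ExpLe (v : ℕ → ℝ) (τ : ℝ) : Prop := ∀ t : ℝ, τ < t → Summable (fun k : ℕ => (v k) ^ (-t))

lemma le_height {n : ℕ} (x : Fin n → ℤ) (j : Fin n) : (x j).natAbs ≤ height x :=
  Finset.le_sup (f := fun j => (x j).natAbs) (mem_univ j)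

lemma rad_pos {n : ℕ} (x : Fin n → ℤ) : 1 ≤ rad x :=
  Nat.one_le_iff_ne_zero.2 (prod_ne_zero_iff.2 fun _ hp => (Nat.prime_of_mem_primeFactors hp).ne_zero)

/-- the radical is at least two if the height is -/
lemma rad_ge_two {n : ℕ} (x : Fin n → ℤ) (h0 : ∀ i, x i ≠ 0) (h : 2 ≤ height x) : 2 ≤ rad x := by
  obtain ⟨j, hj⟩ : ∃ j, 2 ≤ (x j).natAbs := by
    by_contra hcon
    push Not at hcon
    have : height x ≤ 1 := Finset.sup_le fun j _ => by have := hcon j; omega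
    omega
  obtain ⟨p, hp, hpd⟩ := Nat.exists_prime_and_dvd (show (x j).natAbs ≠ 1 by omega)
  have hdvd : p ∣ (∏ i, x i).natAbs := by
    refine hpd.trans ?_
    exact Int.natAbs_dvd_natAbs.2 (dvd_prod_of_mem _ (mem_univ j))
  have hne : (∏ i, x i).natAbs ≠ 0 := Int.natAbs_ne_zero.2 (prod_ne_zero_iff.2 fun i _ => h0 i)
  have hmem : p ∈ (∏ i, x i).natAbs.primeFactors := Nat.mem_primeFactors.2 ⟨hp, hdvd, hne⟩
  have h1 : p ∣ rad x := dvd_prod_of_mem _ hmem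
  exact hp.two_le.trans (Nat.le_of_dvd (rad_pos x) h1)

/-- the exceptions with exponent `M` -/
def Exc (n : ℕ) (M : ℝ) : Set (Fin n → ℤ) := {x | Admissible x ∧ (rad x : ℝ) ^ M < (height x : ℝ)}

/-- bounded height -/
lemma finite_height (n : ℕ) (M X : ℝ) : {x | x ∈ Exc n M ∧ (height x : ℝ) ≤ X}.Finite := by
  refine (CountByRadicalSharp.finite_box n X).subset fun x hx i => ?_
  have h1 : ((x i).natAbs : ℝ) ≤ height x := by exact_mod_cast le_height x i
  have h2 : |(x i : ℝ)| = ((x i).natAbs : ℝ) := by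
    rw [Nat.cast_natAbs, Int.cast_abs]
  rw [h2]
  exact h1.trans hx.2

/-- few exceptions, `n ≥ 4` -/
lemma count_four (n : ℕ) (hn : 4 ≤ n) (M : ℝ) (hM : 10 / (3 * (n : ℝ) - 2) ≤ M) (ε : ℝ) (hε : 0 < ε) :
    ∃ C : ℝ, ∀ X : ℝ, 1 ≤ X → ({x | x ∈ Exc n M ∧ (height x : ℝ) ≤ X}.ncard : ℝ) ≤
      C * X ^ ((3 * (n : ℝ) - 5) / ((3 * (n : ℝ) - 2) * M) + ε) := by
  obtain ⟨C, hC⟩ := FewExceptions.result n hn M hM ε hε
  refine ⟨|C|, fun X hX => ?_⟩
  have hn4 : (4 : ℝ) ≤ n := by exact_mod_cast hn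
  have hM0 : 0 < M := lt_of_lt_of_le (by apply div_pos <;> linarith) hM
  have hX1 : 1 ≤ ⌊X⌋₊ := Nat.le_floor (by exact_mod_cast hX)
  have h1 := hC ⌊X⌋₊ hX1
  have hfin : {x : Fin n → ℤ | FewExceptions.Admissible x ∧ (∀ i, |x i| ≤ ((⌊X⌋₊ : ℕ) : ℤ)) ∧
      ¬ FewExceptions.Holds M x}.Finite := by
    refine (CountByRadicalSharp.finite_box n ⌊X⌋₊).subset fun x hx i => ?_
    have := hx.2.1 i
    have h2 : ((|x i| : ℤ) : ℝ) ≤ ((⌊X⌋₊ : ℕ) : ℝ) := by exact_mod_cast this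
    rwa [Int.cast_abs] at h2
  have hsub : {x | x ∈ Exc n M ∧ (height x : ℝ) ≤ X} ⊆
      {x : Fin n → ℤ | FewExceptions.Admissible x ∧ (∀ i, |x i| ≤ ((⌊X⌋₊ : ℕ) : ℤ)) ∧
        ¬ FewExceptions.Holds M x} := by
    rintro x ⟨⟨hx, hx2⟩, hX2⟩
    refine ⟨hx, fun i => ?_, fun hh => ?_⟩
    · have h3 : (x i).natAbs ≤ ⌊X⌋₊ := (le_height x i).trans (Nat.le_floor hX2)
      rw [Int.abs_eq_natAbs]
      exact_mod_cast h3
    · have hsup : ∃ j, height x = (x j).natAbs := by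
        have hne : (univ : Finset (Fin n)).Nonempty := ⟨⟨0, by omega⟩, mem_univ _⟩
        obtain ⟨j, _, hj⟩ := exists_mem_eq_sup univ hne fun j => (x j).natAbs
        exact ⟨j, hj⟩
      obtain ⟨j, hj⟩ := hsup
      have h4 := hh j
      have h5 : |((x j : ℤ) : ℝ)| = (height x : ℝ) := by
        rw [hj, Nat.cast_natAbs, Int.cast_abs]
      rw [h5] at h4
      have h6 : (((∏ i, x i).natAbs.primeFactors.prod id : ℕ) : ℝ) = (rad x : ℝ) := rfl
      rw [h6] at h4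
      exact absurd hx2 (not_lt.2 h4)
  calc ({x | x ∈ Exc n M ∧ (height x : ℝ) ≤ X}.ncard : ℝ)
      ≤ (FewExceptions.exceptions n M ⌊X⌋₊ : ℝ) := by
        exact_mod_cast Set.ncard_le_ncard hsub hfin
    _ ≤ C * ((⌊X⌋₊ : ℕ) : ℝ) ^ ((3 * (n : ℝ) - 5) / ((3 * (n : ℝ) - 2) * M) + ε) := h1
    _ ≤ |C| * X ^ ((3 * (n : ℝ) - 5) / ((3 * (n : ℝ) - 2) * M) + ε) := by
        have hexp : 0 ≤ (3 * (n : ℝ) - 5) / ((3 * (n : ℝ) - 2) * M) + ε := by
          have : 0 ≤ (3 * (n : ℝ) - 5) / ((3 * (n : ℝ) - 2) * M) := by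
            apply div_nonneg
            · linarith
            · apply mul_nonneg _ hM0.le
              linarith
          linarith
        apply mul_le_mul (le_abs_self C) _ (Real.rpow_nonneg (Nat.cast_nonneg _) _) (abs_nonneg C)
        exact Real.rpow_le_rpow (Nat.cast_nonneg _) (Nat.floor_le (by linarith)) hexp

/-- few exceptions, `n ≥ 3` -/
lemma count_three (n : ℕ) (hn : 3 ≤ n) (M : ℝ) (hM : 0 < M) (ε : ℝ) (hε : 0 < ε) :
    ∃ C X₀ : ℝ, ∀ X : ℝ, X₀ ≤ X → ({x | x ∈ Exc n M ∧ (height x : ℝ) ≤ X}.ncard : ℝ) ≤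
      C * X ^ (((n : ℝ) - 1) / (n * M) + ε) := by
  obtain ⟨η, hη, C, hC, h⟩ := (CountByRadicalSharp.result n hn).1 (ε * M) (by positivity)
  refine ⟨C, Real.exp (M * M + 1), fun X hX => ?_⟩
  have hX1 : 1 ≤ X := (Real.one_le_exp (by positivity)).trans hX
  have hX0 : 0 < X := by linarith
  have hlog : M * M ≤ Real.log X := by
    have := Real.log_le_log (Real.exp_pos _) hX
    rw [Real.log_exp] at this
    linarith
  obtain ⟨h1, h2⟩ := h (X ^ (1 / M)) (Real.one_le_rpow hX1 (by positivity))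
  set H : ℝ := Real.exp ((1 + Real.log (X ^ (1 / M))) ^ (2 + η)) with hH
  have hXH : X ≤ H := by
    rw [hH, ← Real.log_le_iff_le_exp hX0, Real.log_rpow hX0]
    set t : ℝ := 1 / M * Real.log X with ht
    have ht0 : M ≤ t := by
      rw [ht, div_mul_eq_mul_div, one_mul, le_div_iff₀ hM]
      exact hlog
    have htL : Real.log X = M * t := by
      rw [ht]
      field_simp
    have h3 : (1 + t) ^ (2 : ℝ) ≤ (1 + t) ^ (2 + η) :=
      Real.rpow_le_rpow_of_exponent_le (by linarith) (by linarith)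
    have h4 : (1 + t) ^ (2 : ℝ) = (1 + t) ^ 2 := by
      rw [← Real.rpow_natCast]
      norm_num
    rw [h4] at h3
    rw [htL]
    nlinarith
  have hsub : {x | x ∈ Exc n M ∧ (height x : ℝ) ≤ X} ⊆ CountByRadicalSharp.Tuples n (X ^ (1 / M)) H := by
    rintro x ⟨⟨hx, hx2⟩, hX2⟩
    refine ⟨⟨hx.1, fun i j hij => Int.isCoprime_iff_gcd_eq_one.2 (hx.2.1 i j hij), hx.2.2⟩, ?_, fun i => ?_⟩
    · have h5 : (rad x : ℝ) ^ M ≤ X := hx2.le.trans hX2
      have h6 : ((rad x : ℝ) ^ M) ^ (1 / M) ≤ X ^ (1 / M) :=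
        Real.rpow_le_rpow (Real.rpow_nonneg (Nat.cast_nonneg _) _) h5 (by positivity)
      rw [← Real.rpow_mul (Nat.cast_nonneg _), mul_one_div_cancel hM.ne', Real.rpow_one] at h6
      exact h6
    · have h7 : ((x i).natAbs : ℝ) ≤ height x := by exact_mod_cast le_height x i
      have h8 : |(x i : ℝ)| = ((x i).natAbs : ℝ) := by
        rw [Nat.cast_natAbs, Int.cast_abs]
      rw [h8]
      exact h7.trans (hX2.trans hXH)
  calc ({x | x ∈ Exc n M ∧ (height x : ℝ) ≤ X}.ncard : ℝ)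
      ≤ ((CountByRadicalSharp.Tuples n (X ^ (1 / M)) H).ncard : ℝ) := by
        exact_mod_cast Set.ncard_le_ncard hsub h1
    _ ≤ C * (X ^ (1 / M)) ^ (((n : ℝ) - 1) / n + ε * M) := h2
    _ = C * X ^ (((n : ℝ) - 1) / (n * M) + ε) := by
        have hn0 : (n : ℝ) ≠ 0 := by
          have : 0 < n := by omega
          exact_mod_cast this.ne'
        rw [← Real.rpow_mul hX0.le]
        congr 2
        field_simp

/-- windows, from the number of the exceptions -/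
lemma windows_of_count (n : ℕ) (M s : ℝ) (hs : 0 ≤ s)
    (hcount : ∀ ε : ℝ, 0 < ε → ∃ C X₀ : ℝ, ∀ X : ℝ, X₀ ≤ X →
      ({x | x ∈ Exc n M ∧ (height x : ℝ) ≤ X}.ncard : ℝ) ≤ C * X ^ (s + ε))
    {v : ℕ → ℝ} {τ θ : ℝ} (hpos : ∀ k, 1 ≤ v k) (hτ : 0 ≤ τ) (hv : ExpLe v τ) (hθ1 : θ < 1) :
    ∃ E : Set ℝ, dimH E ≤ ENNReal.ofReal ((s + τ) / (1 - θ)) ∧ ∀ α : ℝ, 0 < α → α ∉ E →
      ∃ k₀ : ℕ, ∀ k : ℕ, k₀ ≤ k → ∀ x : Fin n → ℤ, Admissible x → |(height x : ℝ) - α * v k| ≤ (v k) ^ θ →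
        (height x : ℝ) ≤ (rad x : ℝ) ^ M := by
  have htv : Tendsto v atTop atTop :=
    Pool.Agent.Y854.GM.tendsto_of_expLe (fun k => lt_of_lt_of_le one_pos (hpos k)) hτ hv
  obtain ⟨E, hE1, hE2⟩ := Pool.Agent.Y854.GM.windowsV (fun _ => Exc n M) (fun _ x => (height x : ℝ))
    (v := v) (s := s) (τ := τ) (θ := θ) 1 hpos hτ hv hs hθ1 (by
      intro A ε hε
      obtain ⟨C, X₀, hC⟩ := hcount ε hε
      obtain ⟨k₁, hk₁⟩ := (htv.eventually_ge_atTop X₀).exists_forall_of_atTop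
      refine ⟨C * ((A : ℝ) + 1) ^ (s + ε), k₁, fun k hk => ⟨finite_height n M _, ?_⟩⟩
      have h1 := hpos k
      have h2 : (0 : ℝ) ≤ A := Nat.cast_nonneg A
      have h3 := hC (((A : ℝ) + 1) * v k) ((hk₁ k hk).trans (by nlinarith))
      rw [Real.mul_rpow (by positivity) (by linarith), ← mul_assoc] at h3
      exact h3)
  refine ⟨E, hE1, fun α hα hαE => ?_⟩
  obtain ⟨k₀, hk⟩ := hE2 α hα hαE
  refine ⟨k₀, fun k hkk x hx hw => ?_⟩
  by_contra hcon
  push Not at hcon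
  have h1 := hk k hkk x ⟨hx, hcon⟩
  rw [one_mul] at h1
  exact absurd hw (not_le.2 h1)

/-- one set for all `n ≥ 3`; all windows; the exponent depends on `α` -/
lemma windows_all {v : ℕ → ℝ} {τ θ : ℝ} (hpos : ∀ k, 1 ≤ v k) (hτ : 0 ≤ τ) (hv : ExpLe v τ) (hθ1 : θ < 1) :
    ∃ E : Set ℝ, dimH E ≤ ENNReal.ofReal (τ / (1 - θ)) ∧ ∀ α : ℝ, 0 < α → α ∉ E → ∀ n : ℕ, 3 ≤ n →
      ∃ M : ℝ, ∀ k : ℕ, ∀ x : Fin n → ℤ, Admissible x → |(height x : ℝ) - α * v k| ≤ (v k) ^ θ →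
        (height x : ℝ) ≤ (rad x : ℝ) ^ M := by
  have hall : ∀ n j : ℕ, ∃ E : Set ℝ, dimH E ≤ ENNReal.ofReal ((0 + 1 / ((j : ℝ) + 1) + τ) / (1 - θ)) ∧
      ∀ α : ℝ, 0 < α → α ∉ E → 3 ≤ n →
      ∃ k₀ : ℕ, ∀ k : ℕ, k₀ ≤ k → ∀ x : Fin n → ℤ, Admissible x → |(height x : ℝ) - α * v k| ≤ (v k) ^ θ →
        (height x : ℝ) ≤ (rad x : ℝ) ^ ((j : ℝ) + 1) := by
    intro n j
    by_cases hn : 3 ≤ n
    · obtain ⟨E, hE1, hE2⟩ := windows_of_count n ((j : ℝ) + 1) (1 / ((j : ℝ) + 1)) (by positivity) (by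
        intro ε hε
        obtain ⟨C, X₀, hC⟩ := count_three n hn ((j : ℝ) + 1) (by positivity) ε hε
        refine ⟨|C|, max X₀ 1, fun X hX => (hC X ((le_max_left _ _).trans hX)).trans ?_⟩
        have hX1 : 1 ≤ X := (le_max_right _ _).trans hX
        apply mul_le_mul (le_abs_self C) _ (Real.rpow_nonneg (by linarith) _) (abs_nonneg C)
        apply Real.rpow_le_rpow_of_exponent_le hX1
        have hn0 : (0 : ℝ) < n := by
          have : 0 < n := by omega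
          exact_mod_cast this
        have : ((n : ℝ) - 1) / (n * ((j : ℝ) + 1)) ≤ 1 / ((j : ℝ) + 1) := by
          rw [div_le_div_iff₀ (by positivity) (by positivity)]
          have : (0 : ℝ) ≤ j := Nat.cast_nonneg j
          nlinarith
        linarith) hpos hτ hv hθ1
      exact ⟨E, by rw [zero_add]; exact hE1, fun α hα hαE _ => hE2 α hα hαE⟩
    · exact ⟨∅, by simp, fun α _ _ h => absurd h hn⟩
  choose E hE1 hE2 using hall
  refine ⟨⋃ n, ⋂ j, E n j, ?_, fun α hα hαE n hn => ?_⟩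
  · rw [dimH_iUnion]
    refine iSup_le fun n => ?_
    have := Pool.Agent.V11326.WS.inter_dim (s := 0) (τ := τ) hθ1 (E n) (hE1 n)
    rwa [zero_add] at this
  · obtain ⟨j, hj⟩ : ∃ j, α ∉ E n j := by
      by_contra hcon
      push Not at hcon
      exact hαE (Set.mem_iUnion.2 ⟨n, Set.mem_iInter.2 hcon⟩)
    obtain ⟨k₀, hk₀⟩ := hE2 n j α hα hj hn
    -- the heights in the first windows are bounded
    obtain ⟨B, hB⟩ : ∃ B : ℝ, ∀ k : ℕ, k < k₀ → (α + 1) * v k ≤ B := by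
      refine ⟨∑ k ∈ range k₀, (α + 1) * v k, fun k hk => ?_⟩
      exact single_le_sum (f := fun k => (α + 1) * v k)
        (fun i _ => mul_nonneg (by linarith) (by linarith [hpos i])) (mem_range.2 hk)
    refine ⟨max ((j : ℝ) + 1) (Real.logb 2 (max B 1)), fun k x hx hw => ?_⟩
    have hrad1 : (1 : ℝ) ≤ rad x := by exact_mod_cast rad_pos x
    rcases Nat.lt_or_ge k k₀ with hk | hk
    · have h1 : (height x : ℝ) ≤ B := (Pool.Agent.V11326.WZ.le_of_window (hpos k) hθ1 hw).trans (hB k hk)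
      rcases Nat.lt_or_ge (height x) 2 with h2 | h2
      · have h3 : (height x : ℝ) ≤ 1 := by
          have : height x ≤ 1 := by omega
          exact_mod_cast this
        refine h3.trans (Real.one_le_rpow hrad1 ?_)
        exact le_trans (by positivity) (le_max_left _ _)
      · have h4 : (2 : ℝ) ≤ rad x := by exact_mod_cast rad_ge_two x hx.1 h2
        have hB1 : (0 : ℝ) < max B 1 := lt_of_lt_of_le one_pos (le_max_right _ _)
        calc (height x : ℝ) ≤ max B 1 := h1.trans (le_max_left _ _)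
          _ = 2 ^ (Real.logb 2 (max B 1)) := (Real.rpow_logb two_pos (by norm_num) hB1).symm
          _ ≤ 2 ^ (max ((j : ℝ) + 1) (Real.logb 2 (max B 1))) :=
              Real.rpow_le_rpow_of_exponent_le (by norm_num) (le_max_right _ _)
          _ ≤ (rad x : ℝ) ^ (max ((j : ℝ) + 1) (Real.logb 2 (max B 1))) := by
              apply Real.rpow_le_rpow (by norm_num) h4
              exact le_trans (by positivity) (le_max_left _ _)
    · exact (hk₀ k hk x hx hw).trans (Real.rpow_le_rpow_of_exponent_le hrad1 (le_max_left _ _))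

/-- **The strong n-conjecture for all tuples with a height in windows around `α v_k`.** Let `v ≥ 1` be a sequence of
exponent of convergence at most `τ ≥ 0`.

(1) For `n ≥ 4`, `M ≥ 10 / (3 n - 2)` and `θ < 1` there is a set `E` of Hausdorff dimension at most
`((3 n - 5) / ((3 n - 2) M) + τ) / (1 - θ)` such that for all `α > 0` outside `E` and all large `k` all admissible
`n`-tuples `x` with `|height x - α v_k| ≤ v_k ^ θ` satisfy `height x ≤ (rad x) ^ M`.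

(2) The same for `n ≥ 3` and `M > 0` with the dimension `((n - 1) / (n M) + τ) / (1 - θ)`.

(3) For `θ < 1` there is a set `E` of Hausdorff dimension at most `τ / (1 - θ)` such that for all `α > 0` outside `E` and
all `n ≥ 3` there is `M` such that for all `k` all admissible `n`-tuples `x` with `|height x - α v_k| ≤ v_k ^ θ` satisfy
`height x ≤ (rad x) ^ M`.

(4) If `τ = 0` there is a set `E` of Hausdorff dimension `0` such that for all `α > 0` outside `E`, all `θ < 1` and all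
`n ≥ 3` there is `M` such that for all `k` all admissible `n`-tuples `x` with `|height x - α v_k| ≤ v_k ^ θ` satisfy
`height x ≤ (rad x) ^ M`.

(5) `v_k = (k + 1) ^ a` has exponent of convergence at most `1 / a`, and `v_k = b ^ k` at most `0`. -/
theorem result :
    (∀ (v : ℕ → ℝ) (τ : ℝ), (∀ k, 1 ≤ v k) → 0 ≤ τ → ExpLe v τ →
      (∀ (n : ℕ) (M θ : ℝ), 4 ≤ n → 10 / (3 * (n : ℝ) - 2) ≤ M → θ < 1 →
        ∃ E : Set ℝ, dimH E ≤ ENNReal.ofReal (((3 * (n : ℝ) - 5) / ((3 * (n : ℝ) - 2) * M) + τ) / (1 - θ)) ∧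
          ∀ α : ℝ, 0 < α → α ∉ E → ∃ k₀ : ℕ, ∀ k : ℕ, k₀ ≤ k → ∀ x : Fin n → ℤ, Admissible x →
            |(height x : ℝ) - α * v k| ≤ (v k) ^ θ → (height x : ℝ) ≤ (rad x : ℝ) ^ M) ∧
      (∀ (n : ℕ) (M θ : ℝ), 3 ≤ n → 0 < M → θ < 1 →
        ∃ E : Set ℝ, dimH E ≤ ENNReal.ofReal ((((n : ℝ) - 1) / (n * M) + τ) / (1 - θ)) ∧
          ∀ α : ℝ, 0 < α → α ∉ E → ∃ k₀ : ℕ, ∀ k : ℕ, k₀ ≤ k → ∀ x : Fin n → ℤ, Admissible x →
            |(height x : ℝ) - α * v k| ≤ (v k) ^ θ → (height x : ℝ) ≤ (rad x : ℝ) ^ M) ∧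
      (∀ θ : ℝ, θ < 1 → ∃ E : Set ℝ, dimH E ≤ ENNReal.ofReal (τ / (1 - θ)) ∧
        ∀ α : ℝ, 0 < α → α ∉ E → ∀ n : ℕ, 3 ≤ n → ∃ M : ℝ, ∀ k : ℕ, ∀ x : Fin n → ℤ, Admissible x →
          |(height x : ℝ) - α * v k| ≤ (v k) ^ θ → (height x : ℝ) ≤ (rad x : ℝ) ^ M)) ∧
    (∀ v : ℕ → ℝ, (∀ k, 1 ≤ v k) → ExpLe v 0 → ∃ E : Set ℝ, dimH E = 0 ∧
      ∀ α : ℝ, 0 < α → α ∉ E → ∀ θ : ℝ, θ < 1 → ∀ n : ℕ, 3 ≤ n → ∃ M : ℝ, ∀ k : ℕ, ∀ x : Fin n → ℤ,
        Admissible x → |(height x : ℝ) - α * v k| ≤ (v k) ^ θ → (height x : ℝ) ≤ (rad x : ℝ) ^ M) ∧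
    (∀ a : ℝ, 0 < a → ExpLe (fun k : ℕ => ((k : ℝ) + 1) ^ a) (1 / a)) ∧
    (∀ b : ℝ, 1 < b → ExpLe (fun k : ℕ => b ^ k) 0) := by
  refine ⟨fun v τ hpos hτ hv => ⟨fun n M θ hn hM hθ => ?_, fun n M θ hn hM hθ => ?_,
    fun θ hθ => windows_all hpos hτ hv hθ⟩, fun v hpos hv => ?_,
    fun a ha => Pool.Agent.Y854.GM.expLe_pow a ha, fun b hb => Pool.Agent.Y854.GM.expLe_geom b hb⟩
  · have hn4 : (4 : ℝ) ≤ n := by exact_mod_cast hn
    have hM0 : 0 < M := lt_of_lt_of_le (by apply div_pos <;> linarith) hM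
    refine windows_of_count n M _ ?_ (fun ε hε => ?_) hpos hτ hv hθ
    · apply div_nonneg
      · linarith
      · apply mul_nonneg _ hM0.le
        linarith
    · obtain ⟨C, hC⟩ := count_four n hn M hM ε hε
      exact ⟨C, 1, hC⟩
  · have hn3 : (3 : ℝ) ≤ n := by exact_mod_cast hn
    refine windows_of_count n M _ ?_ (fun ε hε => count_three n hn M hM ε hε) hpos hτ hv hθ
    apply div_nonneg
    · linarith
    · positivity
  · have hj1 : ∀ j : ℕ, 1 - 1 / ((j : ℝ) + 1) < 1 := fun j => by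
      have : (0 : ℝ) < 1 / ((j : ℝ) + 1) := by positivity
      linarith
    have hall := fun j : ℕ => windows_all (θ := 1 - 1 / ((j : ℝ) + 1)) hpos le_rfl hv (hj1 j)
    choose E hE1 hE2 using hall
    refine ⟨⋃ j, E j, ?_, fun α hα hαE θ hθ n hn => ?_⟩
    · rw [dimH_iUnion]
      apply le_antisymm _ bot_le
      refine iSup_le fun j => (hE1 j).trans ?_
      simp
    · obtain ⟨j, hj⟩ := exists_nat_ge (1 / (1 - θ))
      have h1 : 0 < 1 - θ := by linarith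
      have hjθ : θ ≤ 1 - 1 / ((j : ℝ) + 1) := by
        have h2 : 1 / ((j : ℝ) + 1) ≤ 1 - θ := by
          rw [div_le_iff₀ h1] at hj
          rw [div_le_iff₀ (by positivity)]
          nlinarith
        linarith
      obtain ⟨M, hM⟩ := hE2 j α hα (fun h => hαE (Set.mem_iUnion.2 ⟨j, h⟩)) n hn
      exact ⟨M, fun k x hx hw => hM k x hx
        (hw.trans (Real.rpow_le_rpow_of_exponent_le (hpos k) hjθ))⟩

end Pool.Agent.Results.MP_7ecdd4_nt.WindowsOfHeights
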